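import Pool.Agent.W47.KA.Defs

/-!
# Project KA: the main theorem
-/

set_option autoImplicit false

namespace Pool.Agent.W47.KA

open Finset Polynomial Filter
open Pool.Agent.W472.AC (ev Meas MeasP digit meas_fract)

lemma rec_alg (μ A K : ℝ) (r : ℕ) (hμ : 0 ≤ μ) (hA : 0 ≤ A) (hK : 0 ≤ K) (E : Finset ℕ) (L : ℕ)
    (hE : ∀ i ∈ E, 1 ≤ i)
    (hgap : ∀ u v : ℕ, u ≤ v → v ≤ L → (∀ i ∈ E, i ≤ u ∨ v < i) →
      (v : ℝ) ≤ μ * (r * u + K) + A) :
    ∀ k v : ℕ, 1 ≤ v → v ≤ L + 1 → (E.filter (· < v)).card ≤ k →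
      (v : ℝ) ≤ (μ * K + A + 1) * ∑ i ∈ range (k + 1), (μ * r) ^ i := by
  have hr0 : (0 : ℝ) ≤ r := Nat.cast_nonneg r
  have hS : ∀ k : ℕ, (1 : ℝ) ≤ ∑ i ∈ range (k + 1), (μ * r) ^ i := by
    intro k
    rw [Finset.sum_range_succ']
    have : 0 ≤ ∑ i ∈ range k, (μ * (r : ℝ)) ^ (i + 1) := Finset.sum_nonneg fun i _ => by positivity
    simp only [pow_zero]
    linarith
  have hM : 0 ≤ μ * K + A + 1 := by positivity
  have hfree : ∀ k v : ℕ, 1 ≤ v → v ≤ L + 1 → E.filter (· < v) = ∅ →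
      (v : ℝ) ≤ (μ * K + A + 1) * ∑ i ∈ range (k + 1), (μ * r) ^ i := by
    intro k v hv1 hv hEv
    have h1 := hgap 0 (v - 1) (Nat.zero_le _) (by omega) (fun i hi => by
      right
      by_contra h
      push Not at h
      have : i ∈ E.filter (· < v) := by
        rw [mem_filter]; exact ⟨hi, by omega⟩
      rw [hEv] at this
      simp at this)
    rw [Nat.cast_sub hv1] at h1
    push_cast at h1
    have h2 := mul_le_mul_of_nonneg_left (hS k) hM
    linarith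
  intro k
  induction k with
  | zero =>
    intro v hv1 hv hEv
    exact hfree 0 v hv1 hv (card_eq_zero.1 (by omega))
  | succ k ih =>
    intro v hv1 hv hEv
    by_cases hemp : E.filter (· < v) = ∅
    · exact hfree (k + 1) v hv1 hv hemp
    · have hne : (E.filter (· < v)).Nonempty := Finset.nonempty_iff_ne_empty.2 hemp
      set e := (E.filter (· < v)).max' hne with he
      have hemem : e ∈ E.filter (· < v) := Finset.max'_mem _ _
      have hev : e < v := (mem_filter.1 hemem).2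
      have he1 : 1 ≤ e := hE e (mem_filter.1 hemem).1
      have hcard : (E.filter (· < e)).card ≤ k := by
        have hss : E.filter (· < e) ⊂ E.filter (· < v) := by
          rw [Finset.ssubset_iff_of_subset]
          · exact ⟨e, hemem, by simp⟩
          · intro i hi
            rw [mem_filter] at hi ⊢
            exact ⟨hi.1, by omega⟩
        have := Finset.card_lt_card hss
        omega
      have h1 := ih e he1 (by omega) hcard
      have h2 := hgap e (v - 1) (by omega) (by omega) (fun i hi => by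
        by_contra h
        push Not at h
        have : i ∈ E.filter (· < v) := by
          rw [mem_filter]; exact ⟨hi, by omega⟩
        have := Finset.le_max' _ _ this
        omega)
      rw [Nat.cast_sub hv1] at h2
      push_cast at h2
      have h3 : (∑ i ∈ range (k + 1 + 1), (μ * (r : ℝ)) ^ i) =
          μ * r * (∑ i ∈ range (k + 1), (μ * (r : ℝ)) ^ i) + 1 := by
        rw [Finset.sum_range_succ', Finset.mul_sum]
        simp only [pow_zero, pow_succ]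
        congr 1
        refine Finset.sum_congr rfl fun i _ => by ring
      rw [h3]
      have h4 := mul_le_mul_of_nonneg_left h1 (by positivity : 0 ≤ μ * r)
      linarith

/-- no relation of small degree after `k` changes -/
theorem main (h1 : S_KA1) (h2 : S_KA2) (x : ℝ) (r : ℕ) (w c : ℝ) (hw : 0 ≤ w) (hc : 0 < c)
    (hx : MeasP x r w c) (k : ℕ) (θ : ℝ) (hθ0 : 0 ≤ θ)
    (hθ : θ * ((w + 1) * ∑ i ∈ range (k + 1), ((w + 1) * r) ^ i) < 1) :
    ∀ᶠ L : ℕ in atTop, ∀ b : ℕ, 2 ≤ b → ∀ s : ℕ → ℤ, (∀ i, |s i| ≤ b) →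
      ((Icc 1 L).filter fun i => s i ≠ digit b x i).card ≤ k →
      ∀ κ : ℕ, (κ : ℝ) ≤ θ * L → ¬ AlgRel s r L κ := by
  obtain ⟨c', hc', hM⟩ := meas_fract x r w c hc hx
  obtain ⟨a, ha0, ha⟩ := h2 x r w c' hw hc' hM
  have hr0 : (0 : ℝ) ≤ r := Nat.cast_nonneg r
  obtain ⟨S, hS⟩ : ∃ S : ℝ, S = ∑ i ∈ range (k + 1), ((w + 1) * (r : ℝ)) ^ i := ⟨_, rfl⟩
  have hS1 : 1 ≤ S := by
    rw [hS, Finset.sum_range_succ']
    have : 0 ≤ ∑ i ∈ range k, ((w + 1) * (r : ℝ)) ^ (i + 1) :=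
      Finset.sum_nonneg fun i _ => by positivity
    simp only [pow_zero]
    linarith
  rw [← hS] at hθ
  obtain ⟨u, hu⟩ : ∃ u : ℝ, u = θ * ((w + 1) * S) := ⟨_, rfl⟩
  have hu0 : 0 ≤ u := by rw [hu]; positivity
  rw [← hu] at hθ
  obtain ⟨q, hq⟩ := exists_nat_gt (u * (r + 1) / (1 - u))
  have hq0 : (0 : ℝ) < q := lt_of_le_of_lt (div_nonneg (by positivity) (by linarith)) hq
  have hq1 : 0 < q := by exact_mod_cast hq0
  obtain ⟨ξ, hξ⟩ : ∃ ξ : ℝ, ξ = 1 - u * (1 + (r + 1) / q) := ⟨_, rfl⟩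
  have hξ0 : 0 < ξ := by
    rw [div_lt_iff₀ (by linarith)] at hq
    have h1 : u * (r + 1) / q < 1 - u := by
      rw [div_lt_iff₀ hq0]; linarith
    have e : u * (1 + ((r : ℝ) + 1) / q) = u + u * (r + 1) / q := by ring
    rw [hξ, e]; linarith
  obtain ⟨κ', hκ'⟩ : ∃ κ' : ℕ, κ' = q + (r + 1) := ⟨_, rfl⟩
  obtain ⟨a1, ha1⟩ : ∃ a1 : ℝ, a1 = S * (a * (κ' + 1)) + 1 := ⟨_, rfl⟩
  have ha10 : 0 < a1 := by
    rw [ha1]
    have : 0 ≤ S * (a * ((κ' : ℝ) + 1)) := by positivity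
    linarith
  have hev : ∀ᶠ L : ℕ in atTop, a1 * (1 + Real.log (L + 1)) + S + 2 < ξ * L := by
    have h1 := (Real.isLittleO_log_id_atTop.comp_tendsto tendsto_natCast_atTop_atTop).def
      (show 0 < ξ / (2 * a1) by positivity)
    have h2 := tendsto_natCast_atTop_atTop.eventually_gt_atTop
      ((2 * a1 + S + 2) / (ξ / 2) : ℝ)
    filter_upwards [h1, h2, eventually_ge_atTop 1] with L hL1 hL2 hL3
    have hLR : (1 : ℝ) ≤ L := by exact_mod_cast hL3
    simp only [Function.comp, id] at hL1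
    rw [Real.norm_eq_abs, Real.norm_eq_abs, abs_of_nonneg (Real.log_nonneg hLR),
      abs_of_nonneg (by linarith : (0 : ℝ) ≤ L)] at hL1
    have h3 : Real.log ((L : ℝ) + 1) ≤ 1 + Real.log L := by
      have h4 : Real.log ((L : ℝ) + 1) ≤ Real.log (2 * L) :=
        Real.log_le_log (by linarith) (by linarith)
      rw [Real.log_mul (by norm_num) (by linarith)] at h4
      have := Real.log_two_lt_d9
      linarith
    rw [div_lt_iff₀ (by positivity)] at hL2
    have h5 : a1 * Real.log L ≤ ξ / 2 * L := by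
      calc a1 * Real.log L ≤ a1 * (ξ / (2 * a1) * L) := mul_le_mul_of_nonneg_left hL1 ha10.le
        _ = ξ / 2 * L := by field_simp
    have h6 := mul_le_mul_of_nonneg_left h3 ha10.le
    linarith
  filter_upwards [hev, eventually_ge_atTop 1] with L hL hL1 b hb s hs hE κ hκ hrel
  have hLR : (1 : ℝ) ≤ L := by exact_mod_cast hL1
  have hlogL : 0 ≤ Real.log ((L : ℝ) + 1) := Real.log_nonneg (by linarith)
  obtain ⟨δ, hδ⟩ : ∃ δ : ℕ, δ = (r + 1) * κ / q := ⟨_, rfl⟩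
  have hδR : (δ : ℝ) ≤ (r + 1) * κ / q := by
    rw [hδ]
    have := @Nat.cast_div_le ℝ _ _ _ ((r + 1) * κ) q
    push_cast at this
    exact this
  have hκδ : (r + 1) * (κ + δ + 1) ≤ κ' * (δ + 1) := by
    have h1 : (r + 1) * κ < q * ((r + 1) * κ / q + 1) := Nat.lt_mul_div_succ _ hq1
    rw [← hδ] at h1
    rw [hκ']
    calc (r + 1) * (κ + δ + 1) = (r + 1) * κ + (r + 1) * (δ + 1) := by ring
      _ ≤ q * (δ + 1) + (r + 1) * (δ + 1) := by linarith
      _ = (q + (r + 1)) * (δ + 1) := by ring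
  have hK : (w + 1) * S * ((κ : ℝ) + δ) ≤ (1 - ξ) * L := by
    have h1 : (κ : ℝ) + δ ≤ κ * (1 + (r + 1) / q) := by
      calc (κ : ℝ) + δ ≤ κ + (r + 1) * κ / q := by linarith
        _ = κ * (1 + (r + 1) / q) := by ring
    have hz : (0 : ℝ) ≤ 1 + (r + 1) / q := by positivity
    calc (w + 1) * S * ((κ : ℝ) + δ) ≤ (w + 1) * S * (κ * (1 + (r + 1) / q)) :=
          mul_le_mul_of_nonneg_left h1 (by positivity)
      _ ≤ (w + 1) * S * (θ * L * (1 + (r + 1) / q)) := by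
          refine mul_le_mul_of_nonneg_left ?_ (by positivity)
          exact mul_le_mul_of_nonneg_right hκ hz
      _ = (1 - ξ) * L := by rw [hξ, hu]; ring
  have hp : 0 ≤ a1 * (1 + Real.log (L + 1)) := by positivity
  have hKw : (κ : ℝ) + δ ≤ (w + 1) * S * ((κ : ℝ) + δ) := by
    have h3 : 1 ≤ (w + 1) * S := by nlinarith
    have h4 : (0 : ℝ) ≤ (κ : ℝ) + δ := by positivity
    nlinarith
  have hKL : κ + δ ≤ L := by
    have : (κ : ℝ) + δ ≤ L := by linarith
    exact_mod_cast this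
  obtain ⟨t, htd, htH, htX, hj⟩ := h1 r κ δ L b κ' s hb hs hrel hκδ
  set E := (Icc 1 L).filter fun i => s i ≠ digit b x i with hEdef
  have hgap := rec_alg (w + 1) (a * (κ' + 1) * (1 + Real.log (L + 1))) ((κ + δ : ℕ) : ℝ) r
    (by linarith) (by positivity) (by positivity) E L
    (fun i hi => (mem_Icc.1 (mem_filter.1 hi).1).1)
    (fun u v huv hvL hfree => ha b L (κ + δ) κ' u v s t hb hs hKL htd htH htX hj huv hvL
      (fun i hi1 hi2 => by
        by_contra hne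
        have hiE : i ∈ E := by
          rw [hEdef, mem_filter, mem_Icc]
          exact ⟨⟨by omega, by omega⟩, hne⟩
        rcases hfree i hiE with h | h <;> omega))
    k (L + 1) (by omega) le_rfl ((Finset.card_filter_le _ _).trans hE)
  rw [← hS] at hgap
  push_cast at hgap
  have e1 : ((w + 1) * ((κ : ℝ) + δ) + a * (κ' + 1) * (1 + Real.log (L + 1)) + 1) * S =
      (w + 1) * S * ((κ : ℝ) + δ) + S * (a * (κ' + 1)) * (1 + Real.log (L + 1)) + S := by ring
  rw [e1] at hgap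
  have e2 : S * (a * (κ' + 1)) * (1 + Real.log (L + 1)) ≤ a1 * (1 + Real.log (L + 1)) := by
    refine mul_le_mul_of_nonneg_right ?_ (by linarith)
    rw [ha1]; linarith
  linarith

/-- the least degree of a relation after `k` changes -/
noncomputable def errAlg (b : ℕ) (x : ℝ) (r k L : ℕ) : ℕ :=
  sInf {κ | ∃ s : ℕ → ℤ, (∀ i, |s i| ≤ b) ∧
    ((Icc 1 L).filter fun i => s i ≠ digit b x i).card ≤ k ∧ AlgRel s r L κ}

lemma algRel_self (s : ℕ → ℤ) (r L : ℕ) : AlgRel s r L (L + 1) := by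
  refine ⟨C (X ^ (L + 1)), ?_, ?_, ?_, ?_⟩
  · rw [Ne, C_eq_zero]
    exact pow_ne_zero _ X_ne_zero
  · rw [natDegree_C]; exact Nat.zero_le _
  · intro j
    rw [coeff_C]
    split_ifs
    · rw [natDegree_X_pow]
    · rw [natDegree_zero]; exact Nat.zero_le _
  · rw [eval_C]

theorem transfer (h1 : S_KA1) (h2 : S_KA2) (x : ℝ) (r : ℕ) (w : ℝ) (hw : 0 ≤ w)
    (hx : ∀ η : ℝ, 0 < η → ∃ c : ℝ, 0 < c ∧ MeasP x r (w + η) c) (k : ℕ) (ε : ℝ) (hε : 0 < ε) :
    ∃ L₀ : ℕ, ∀ L : ℕ, L₀ ≤ L → ∀ b : ℕ, 2 ≤ b →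
      (1 / ((w + 1) * ∑ i ∈ range (k + 1), ((w + 1) * r) ^ i) - ε) * L < errAlg b x r k L := by
  have hr0 : (0 : ℝ) ≤ r := Nat.cast_nonneg r
  obtain ⟨g, hg⟩ : ∃ g : ℝ → ℝ, g = fun w' => (w' + 1) * ∑ i ∈ range (k + 1),
    ((w' + 1) * (r : ℝ)) ^ i := ⟨_, rfl⟩
  have hgc : Continuous g := by rw [hg]; fun_prop
  have hg1 : ∀ w' : ℝ, 0 ≤ w' → 1 ≤ g w' := by
    intro w' hw'
    rw [hg]
    simp only
    rw [Finset.sum_range_succ']
    have : 0 ≤ ∑ i ∈ range k, ((w' + 1) * (r : ℝ)) ^ (i + 1) :=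
      Finset.sum_nonneg fun i _ => by positivity
    simp only [pow_zero]
    nlinarith
  have hgw : g w = (w + 1) * ∑ i ∈ range (k + 1), ((w + 1) * (r : ℝ)) ^ i := by rw [hg]
  rw [← hgw]
  obtain ⟨θ, hθ⟩ : ∃ θ : ℝ, θ = max 0 (1 / g w - ε) := ⟨_, rfl⟩
  have hθ0 : 0 ≤ θ := by rw [hθ]; exact le_max_left _ _
  have hgw1 := hg1 w hw
  have hθ1 : θ * g w < 1 := by
    rw [hθ]
    rcases max_cases 0 (1 / g w - ε) with ⟨h1, _⟩ | ⟨h1, _⟩
    · rw [h1]; norm_num
    · rw [h1, sub_mul]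
      have : 1 / g w * g w = 1 := by field_simp
      rw [this]
      have : 0 < ε * g w := by positivity
      linarith
  obtain ⟨η, hη0, hη⟩ : ∃ η : ℝ, 0 < η ∧ θ * g (w + η) < 1 := by
    have hcont : Continuous fun η : ℝ => θ * g (w + η) := by fun_prop
    have h0 : (fun η : ℝ => θ * g (w + η)) 0 < 1 := by simpa using hθ1
    have hop : IsOpen {η : ℝ | θ * g (w + η) < 1} := isOpen_lt hcont continuous_const
    obtain ⟨δ, hδ, hball⟩ := Metric.isOpen_iff.1 hop 0 (by simpa using hθ1)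
    refine ⟨δ / 2, by positivity, hball ?_⟩
    rw [Metric.mem_ball, Real.dist_eq, sub_zero, abs_of_pos (by positivity)]
    linarith
  obtain ⟨c, hc, hM⟩ := hx η hη0
  have h3 := main h1 h2 x r (w + η) c (by linarith) hc hM k θ hθ0 (by rw [hg] at hη; exact hη)
  rw [eventually_atTop] at h3
  obtain ⟨L₀, hL₀⟩ := h3
  refine ⟨L₀, fun L hL b hb => ?_⟩
  have hne : {κ | ∃ s : ℕ → ℤ, (∀ i, |s i| ≤ b) ∧
      ((Icc 1 L).filter fun i => s i ≠ digit b x i).card ≤ k ∧ AlgRel s r L κ}.Nonempty := by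
    refine ⟨L + 1, digit b x, fun i => ?_, by simp, algRel_self _ r L⟩
    rw [abs_of_nonneg (Pool.Agent.W472.AC.digit_nonneg x b (by omega) i)]
    exact Pool.Agent.W472.AC.digit_le x b (by omega) i
  obtain ⟨s, hs, hE, hrel⟩ := Nat.sInf_mem hne
  have h4 : θ * L < errAlg b x r k L := by
    by_contra hcon
    exact hL₀ L hL b hb s hs hE _ (not_lt.1 hcon) hrel
  have h5 : (1 / g w - ε) * L ≤ θ * L := by
    refine mul_le_mul_of_nonneg_right ?_ (Nat.cast_nonneg _)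
    rw [hθ]; exact le_max_right _ _
  linarith

end Pool.Agent.W47.KA
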