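import Pool.Agent.W472.AC.Joint

/-!
# Project KA: stability of the algebraic complexity of digit sequences (statements)

Owner: helper47.  Algebraic complexity of degree `r` after `k` changes of digits.
-/

set_option autoImplicit false

namespace Pool.Agent.W47.KA

open Finset Polynomial
open Pool.Agent.W472.AC (ev Meas MeasP digit)

/-- the polynomial `s_1 X + ⋯ + s_L X^L` over `ℤ` -/
noncomputable def SP (s : ℕ → ℤ) (L : ℕ) : ℤ[X] := ∑ i ∈ Icc 1 L, C (s i) * X ^ i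

/-- the polynomial `s_1 X + ⋯ + s_L X^L` over `ℚ` -/
noncomputable def SPQ (s : ℕ → ℤ) (L : ℕ) : ℚ[X] := ∑ i ∈ Icc 1 L, C (s i : ℚ) * X ^ i

/-- an algebraic relation of degree `≤ r` in `Y` and `≤ k` in `X` -/
def AlgRel (s : ℕ → ℤ) (r L k : ℕ) : Prop :=
  ∃ P : ℚ[X][X], P ≠ 0 ∧ P.natDegree ≤ r ∧ (∀ j, (P.coeff j).natDegree ≤ k) ∧
    X ^ (L + 1) ∣ P.eval (SPQ s L)

/-- small integer relation which does not vanish at `1 / b` -/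
def S_KA1 : Prop := ∀ (r k δ L b κ : ℕ) (s : ℕ → ℤ), 2 ≤ b → (∀ i, |s i| ≤ b) → AlgRel s r L k →
  (r + 1) * (k + δ + 1) ≤ κ * (δ + 1) →
  ∃ t : Fin (r + 1) → ℤ[X], (∀ j, (t j).natDegree ≤ k + δ) ∧
    (∀ j i, |(t j).coeff i| ≤ (((r + 1) * (k + δ + 1) * (b * (L + 1)) ^ r) ^ κ : ℕ)) ∧
    X ^ (L + 1) ∣ ∑ j, t j * SP s L ^ (j : ℕ) ∧
    ∃ j, ∑ i ∈ range (k + δ + 1), (t j).coeff i * (b : ℤ) ^ (k + δ - i) ≠ 0

/-- the inequality for a gap between two changed digits -/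
def S_KA2 : Prop := ∀ (x : ℝ) (r : ℕ) (w c : ℝ), 0 ≤ w → 0 < c →
  Meas (fun j : Fin (r + 1) => Int.fract x ^ (j : ℕ)) w c →
  ∃ a : ℝ, 0 ≤ a ∧ ∀ (b L K κ u v : ℕ) (s : ℕ → ℤ) (t : Fin (r + 1) → ℤ[X]), 2 ≤ b →
    (∀ i, |s i| ≤ b) → K ≤ L → (∀ j, (t j).natDegree ≤ K) →
    (∀ j i, |(t j).coeff i| ≤ (((r + 1) * (K + 1) * (b * (L + 1)) ^ r) ^ κ : ℕ)) →
    X ^ (L + 1) ∣ ∑ j, t j * SP s L ^ (j : ℕ) →
    (∃ j, ∑ i ∈ range (K + 1), (t j).coeff i * (b : ℤ) ^ (K - i) ≠ 0) →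
    u ≤ v → v ≤ L → (∀ i, u < i → i ≤ v → s i = digit b x i) →
    (v : ℝ) ≤ (w + 1) * (r * u + K) + a * (κ + 1) * (1 + Real.log (L + 1))

end Pool.Agent.W47.KA
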