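import Pool.Agent.W472.AC.Joint

/-!
# Liouville's inequality for bases of real number fields (statement)
-/

set_option autoImplicit false

namespace Pool.Agent.W47.KA

open Pool.Agent.W472.AC (MeasL)

/-- linear forms in a basis `1, x_1, …, x_n` of a real number field -/
def S_NF : Prop := ∀ (n : ℕ) (K : IntermediateField ℚ ℝ) (x : Fin n → ℝ), 1 ≤ n →
  Module.finrank ℚ K = n + 1 → (∀ s, x s ∈ K) →
  LinearIndependent ℚ (Fin.cons 1 x : Fin (n + 1) → ℝ) →
  ∃ c : ℝ, 0 < c ∧ MeasL x n c

end Pool.Agent.W47.KA
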